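import Pool.Agent.Lib.MP_4fec65_co.Motion

set_option autoImplicit false

/-!
# Redundant symmetric rigidity of `ℤ₂`-symmetric simplicial circuits fails

For all `k ≥ 3` and `n ≥ 3` the join of a `2n`-cycle and the boundary complex of the
`(k-1)`-dimensional cross-polytope, with the antipodal involution, is a `ℤ₂`-symmetric simplicial
`k`-circuit, not isomorphic to `𝓑_k`, whose graph is `2k`-connected; for every edge `e` of the
cycle and `Γ = {I, -I}` the graph minus `e` and `e*` has no infinitesimally rigid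
`Γ`-symmetric realisation in `ℝ^(k+1)`.
-/

namespace Pool.Agent.Results.MP_4fec65_co.CycleJoin

open Pool.Agent.Lib.MP_4fec65_co

theorem isPointInvolution_neg (d : ℕ) :
    IsPointInvolution (-LinearMap.id :
      EuclideanSpace ℝ (Fin (d + 1)) →ₗ[ℝ] EuclideanSpace ℝ (Fin (d + 1))) := by
  refine ⟨?_, ?_, ?_⟩
  · intro h
    obtain ⟨x, hx⟩ := exists_ne (0 : EuclideanSpace ℝ (Fin (d + 1)))
    apply hx
    have h1 := LinearMap.congr_fun h x
    simp only [LinearMap.neg_apply, LinearMap.id_coe, id_eq] at h1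
    have h5 : (2 : ℝ) • x = 0 := by
      rw [two_smul]
      nth_rewrite 1 [← h1]
      exact neg_add_cancel x
    exact (smul_eq_zero.1 h5).resolve_left two_ne_zero
  · intro x
    simp
  · intro x
    simp

theorem result (k n : ℕ) (hk : 3 ≤ k) (hn : 3 ≤ n) :
    ∃ (V : Type) (_ : Fintype V) (_ : DecidableEq V) (S : Finset (Finset V)) (σ : V → V)
      (u v : V),
      Fintype.card V = 2 * n + 2 * (k - 1) ∧
      IsCircuit k S ∧ IsFreeInvolution S σ ∧ ¬ IsoCross k S ∧
      IsKConnected (2 * k) (graph S) ∧ (graph S).Adj u v ∧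
      IsPointInvolution (-LinearMap.id :
        EuclideanSpace ℝ (Fin (k + 1)) →ₗ[ℝ] EuclideanSpace ℝ (Fin (k + 1))) ∧
      ¬ GammaRigid ((graph S).deleteEdges {s(u, v), s(σ u, σ v)}) σ
        (-LinearMap.id :
          EuclideanSpace ℝ (Fin (k + 1)) →ₗ[ℝ] EuclideanSpace ℝ (Fin (k + 1))) := by
  obtain ⟨m, rfl⟩ : ∃ m, k = m + 1 := ⟨k - 1, by omega⟩
  have : NeZero n := ⟨by omega⟩
  refine ⟨Vx n m, inferInstance, inferInstance, cplx n m, inv n m, Sum.inl (-1), Sum.inl 0,
    ?_, isCircuit_cplx (by omega), isFreeInvolution_inv (by omega), not_isoCross (by omega),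
    isKConnected_cplx hn, ?_, isPointInvolution_neg _, ?_⟩
  · rw [card_Vx]; rfl
  · rw [adj_inl_inl]
    refine ⟨?_, Or.inl (by ring)⟩
    intro h
    apply one_ne (n := n) (by omega)
    linear_combination -h
  · rintro ⟨p, hp, hr⟩
    refine not_infRigid (by omega) (by omega) p ?_ hr
    intro v
    rw [hp]
    simp

end Pool.Agent.Results.MP_4fec65_co.CycleJoin
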